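import Mathlib

namespace Pool.Agent.Results.MP_5ee7f3_co.Full

open SimpleGraph

/-- `G` contains an immersion of `K_d` -/
def HasImmersion {V : Type} (G : SimpleGraph V) (d : ℕ) : Prop :=
  ∃ (v : Fin d → V) (P : ∀ i j : Fin d, i < j → G.Walk (v i) (v j)),
    Function.Injective v ∧ (∀ i j h, (P i j h).IsPath) ∧
      ∀ i j h k l h', (i, j) ≠ (k, l) → List.Disjoint (P i j h).edges (P k l h').edges

abbrev K := Fin 4 × Fin 3

theorem core (c : Fin 10 → K) (hc : Function.Injective c) (E : Fin 10 → Fin 10 → K → K → Prop)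
    (sy : ∀ i j a b, E i j a b → E i j b a)
    (dis : ∀ i j k l a b, i ≠ j → k ≠ l → E i j a b → E k l a b →
      (i = k ∧ j = l) ∨ (i = l ∧ j = k))
    (st : ∀ i j, i ≠ j → ∃ z, (c i).1 ≠ z.1 ∧ E i j (c i) z ∧
      (z = c j ∨ ∃ z2, z.1 ≠ z2.1 ∧ E i j z z2 ∧ z2 ≠ c i)) : False := by
  classical
  choose! nx h1 h2 h3 using st
  have inj : ∀ i j k, i ≠ j → i ≠ k → nx i j = nx i k → j = k := by
    intro i j k a b e
    rcases dis i j i k _ _ a b (h2 i j a) (e ▸ h2 i k b) with h | h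
    · exact h.2
    · exact absurd h.1 b
  have surj : ∀ i z, (c i).1 ≠ z.1 → ∃ j, i ≠ j ∧ nx i j = z := by
    intro i z hz
    have hcard : ∀ w : K, (Finset.univ.filter fun z : K => w.1 ≠ z.1).card = 9 := by decide
    obtain ⟨j, hj, e⟩ := Finset.surj_on_of_inj_on_of_card_le (s := Finset.univ.erase i)
      (t := Finset.univ.filter fun z : K => (c i).1 ≠ z.1) (fun j _ => nx i j)
      (fun j hj => by
        simp only [Finset.mem_filter, Finset.mem_univ, true_and]
        exact h1 i j (Finset.ne_of_mem_erase hj).symm)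
      (fun j k hj hk e => inj i j k (Finset.ne_of_mem_erase hj).symm
        (Finset.ne_of_mem_erase hk).symm e)
      (by rw [hcard]; simp) z (by simpa using hz)
    exact ⟨j, (Finset.ne_of_mem_erase hj).symm, e.symm⟩
  have used : ∀ i j a k, i ≠ j → E i j a (c k) → a.1 ≠ (c k).1 →
      (k = i ∧ nx i j = a) ∨ (k = j ∧ nx j i = a) := by
    intro i j a k hij he ha
    obtain ⟨l, hl, e⟩ := surj k a ha.symm
    rcases dis i j k l _ _ hij hl (sy _ _ _ _ he) (e ▸ h2 k l hl) with ⟨rfl, rfl⟩ | ⟨rfl, rfl⟩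
    · exact Or.inl ⟨rfl, e⟩
    · exact Or.inr ⟨rfl, e⟩
  have hN : ((Finset.univ.image c)ᶜ).card = 2 := by
    rw [Finset.card_compl, Finset.card_image_of_injective _ hc]
    simp
  obtain ⟨x, y, hxy, hN⟩ := Finset.card_eq_two.1 hN
  have hN' : ∀ z, (¬ ∃ k, c k = z) ↔ z = x ∨ z = y := by
    intro z
    have : z ∈ (Finset.univ.image c)ᶜ ↔ z ∈ ({x, y} : Finset K) := by rw [hN]
    simpa using this
  have pair : ∀ i j, i ≠ j → (c i).1 = (c j).1 →
      (nx i j = x ∨ nx i j = y) ∧ (nx i j = nx j i ∨ E i j x y) := by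
    intro i j hij hp
    have a : ¬ ∃ k, c k = nx i j := by
      rintro ⟨k, hk⟩
      have b := h1 i j hij
      rcases used i j (c i) k hij (hk ▸ h2 i j hij) (hk ▸ b) with ⟨rfl, -⟩ | ⟨rfl, -⟩
      · exact b (by rw [← hk])
      · exact b (by rw [← hk, hp])
    refine ⟨(hN' _).1 a, ?_⟩
    rcases h3 i j hij with h | ⟨z2, e1, e2, e3⟩
    · exact absurd ⟨j, h.symm⟩ a
    by_cases b : ∃ k, c k = z2
    · obtain ⟨k, rfl⟩ := b
      rcases used i j _ k hij e2 e1 with ⟨rfl, -⟩ | ⟨-, h⟩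
      · exact absurd rfl e3
      · exact Or.inl h.symm
    · right
      rcases (hN' _).1 a with p | p <;> rcases (hN' _).1 b with q | q <;> rw [p, q] at e1 e2
      · exact absurd rfl e1
      · exact e2
      · exact sy _ _ _ _ e2
      · exact absurd rfl e1
  have full : ∀ p : Fin 4, p ≠ x.1 → p ≠ y.1 →
      ∃ i j, i ≠ j ∧ (c i).1 = p ∧ (c j).1 = p ∧ E i j x y := by
    intro p px py
    have ex : ∀ t : Fin 3, ∃ k, c k = (p, t) := by
      intro t
      by_contra h
      rcases (hN' _).1 h with h | h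
      · exact px (by rw [← h])
      · exact py (by rw [← h])
    obtain ⟨a, ha⟩ := ex 0
    obtain ⟨b, hb⟩ := ex 1
    obtain ⟨d, hd⟩ := ex 2
    have ab : a ≠ b := by rintro rfl; rw [ha] at hb; simp at hb
    have ad : a ≠ d := by rintro rfl; rw [ha] at hd; simp at hd
    have bd : b ≠ d := by rintro rfl; rw [hb] at hd; simp at hd
    obtain ⟨p1, q1 | q1⟩ := pair a b ab (by rw [ha, hb])
    swap
    · exact ⟨a, b, ab, by rw [ha], by rw [hb], q1⟩
    obtain ⟨p2, q2 | q2⟩ := pair a d ad (by rw [ha, hd])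
    swap
    · exact ⟨a, d, ad, by rw [ha], by rw [hd], q2⟩
    obtain ⟨p3, q3 | q3⟩ := pair b d bd (by rw [hb, hd])
    swap
    · exact ⟨b, d, bd, by rw [hb], by rw [hd], q3⟩
    exfalso
    have n1 : nx a b ≠ nx a d := fun e => bd (inj a b d ab ad e)
    have n2 : nx a b ≠ nx b d := fun e => ad (inj b a d ab.symm bd (q1 ▸ e))
    have n3 : nx a d ≠ nx b d := fun e => ab (inj d a b ad.symm bd.symm (q2 ▸ q3 ▸ e))
    rcases p1 with p1 | p1 <;> rcases p2 with p2 | p2 <;> rcases p3 with p3 | p3 <;> simp_all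
  have two : ∀ s t : Fin 4, ∃ p q : Fin 4, p ≠ q ∧ p ≠ s ∧ p ≠ t ∧ q ≠ s ∧ q ≠ t := by decide
  obtain ⟨p, q, pq, a1, a2, a3, a4⟩ := two x.1 y.1
  obtain ⟨i, j, hij, b1, b2, b3⟩ := full p a1 a2
  obtain ⟨k, l, hkl, c1, c2, c3⟩ := full q a3 a4
  rcases dis i j k l _ _ hij hkl b3 c3 with ⟨rfl, -⟩ | ⟨rfl, -⟩
  · exact pq (b1.symm.trans c1)
  · exact pq (b1.symm.trans c2)

abbrev V0 := Fin 9 ⊕ Bool × K

def adj : V0 → V0 → Bool
  | .inl a, .inl b => a != b
  | .inl a, .inr (s, p) => p == (0, 0) && s == decide (a.val < 5)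
  | .inr (s, p), .inl a => p == (0, 0) && s == decide (a.val < 5)
  | .inr (s, p), .inr (t, q) => s == t && p.1 != q.1

def G0 : SimpleGraph V0 where
  Adj u v := adj u v = true
  symm := ⟨by decide +kernel⟩
  loopless := ⟨by decide +kernel⟩

instance : DecidableRel G0.Adj := fun _ _ => inferInstanceAs (Decidable (_ = _))

def In (s : Bool) (u : V0) : Prop := ∃ p, u = .inr (s, p)

theorem cross {s : Bool} {u w : V0} (h : G0.Adj u w) (hu : In s u) (hw : ¬ In s w) :
    u = .inr (s, (0, 0)) ∧ ∃ a : Fin 9, w = .inl a ∧ s = decide (a.val < 5) := by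
  obtain ⟨p, rfl⟩ := hu
  rcases w with a | ⟨t, q⟩
  · have h' : (p == (0, 0) && s == decide (a.val < 5)) = true := h
    simp only [Bool.and_eq_true, beq_iff_eq] at h'
    exact ⟨by rw [h'.1], a, rfl, h'.2⟩
  · have h' : (s == t && p.1 != q.1) = true := h
    simp only [Bool.and_eq_true, beq_iff_eq] at h'
    exact absurd ⟨q, by rw [h'.1]⟩ hw

theorem stay {s : Bool} {u w : V0} (p : G0.Walk u w) (hp : p.IsPath) (hu : In s u) (hw : In s w) :
    ∀ z ∈ p.support, In s z := by
  induction p with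
  | nil => intro z hz; simp at hz; exact hz ▸ hu
  | @cons u u' w h q ih =>
    rw [Walk.cons_isPath_iff] at hp
    by_cases h' : In s u'
    · intro z hz
      rw [Walk.support_cons] at hz
      rcases List.mem_cons.1 hz with rfl | hz
      · exact hu
      · exact ih hp.1 h' hw z hz
    · exfalso
      obtain ⟨d, hd, d1, d2⟩ := q.reverse.exists_boundary_dart {z | In s z} hw h'
      have e1 := (cross h hu h').1
      have e2 := (cross d.adj d1 d2).1
      have := q.reverse.dart_fst_mem_support_of_mem_darts hd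
      rw [Walk.support_reverse, List.mem_reverse, e2, ← e1] at this
      exact hp.2 this

theorem first_two {V : Type} {G : SimpleGraph V} {u w : V} (p : G.Walk u w) (hp : p.IsPath)
    (h : u ≠ w) : ∃ z, G.Adj u z ∧ s(u, z) ∈ p.edges ∧ z ∈ p.support ∧
      (z = w ∨ ∃ z2, G.Adj z z2 ∧ s(z, z2) ∈ p.edges ∧ z2 ≠ u ∧ z2 ∈ p.support) := by
  cases p with
  | nil => exact absurd rfl h
  | @cons _ z _ h1 q =>
    refine ⟨z, h1, by simp, by simp, ?_⟩
    cases q with
    | nil => exact Or.inl rfl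
    | @cons _ z2 _ h2 r =>
      right
      refine ⟨z2, h2, by simp, ?_, by simp⟩
      rintro rfl
      rw [Walk.cons_isPath_iff] at hp
      exact hp.2 (by simp)

theorem no_imm : ¬ HasImmersion G0 10 := by
  classical
  rintro ⟨v, P, hv, hP, hD⟩
  have hQ : ∀ i j, ∃ q : G0.Walk (v i) (v j), i ≠ j → q.IsPath ∧ ∃ a b h,
      ((a = i ∧ b = j) ∨ (a = j ∧ b = i)) ∧ ∀ e ∈ q.edges, e ∈ (P a b h).edges := by
    intro i j
    rcases lt_trichotomy i j with h | rfl | h
    · exact ⟨P i j h, fun _ => ⟨hP _ _ _, i, j, h, Or.inl ⟨rfl, rfl⟩, fun _ h => h⟩⟩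
    · exact ⟨Walk.nil, fun h => absurd rfl h⟩
    · exact ⟨(P j i h).reverse, fun _ => ⟨(hP _ _ _).reverse, j, i, h, Or.inr ⟨rfl, rfl⟩,
        fun _ h => by simpa using h⟩⟩
  choose Q hQ using hQ
  have dis : ∀ i j k l e, i ≠ j → k ≠ l → e ∈ (Q i j).edges → e ∈ (Q k l).edges →
      (i = k ∧ j = l) ∨ (i = l ∧ j = k) := by
    intro i j k l e hij hkl e1 e2
    obtain ⟨-, a, b, h, o1, m1⟩ := hQ i j hij
    obtain ⟨-, a', b', h', o2, m2⟩ := hQ k l hkl
    by_cases hh : (a, b) = (a', b')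
    · simp only [Prod.mk.injEq] at hh
      omega
    · exact (hD a b h a' b' h' hh (m1 e e1) (m2 e e2)).elim
  have cut : ∀ s i j, In s (v i) → In s (v j) := by
    intro s i j hi
    by_contra hj
    have bd : ∀ k l, In s (v k) → ¬ In s (v l) → ∃ a : Fin 9, s = decide (a.val < 5) ∧
        s(Sum.inr (s, (0, 0)), Sum.inl a) ∈ (Q k l).edges := by
      intro k l hk hl
      obtain ⟨d, hd, d1, d2⟩ := (Q k l).exists_boundary_dart {z | In s z} hk hl
      obtain ⟨e1, a, e2, e3⟩ := cross d.adj d1 d2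
      refine ⟨a, e3, ?_⟩
      rw [← e1, ← e2]
      exact List.mem_map.2 ⟨d, hd, rfl⟩
    have : ∀ k, ∃ a : Fin 9, k ≠ j → s = decide (a.val < 5) ∧ ∃ k1 k2, In s (v k1) ∧
        ¬ In s (v k2) ∧ ((k1 = k ∧ k2 = j) ∨ (k1 = i ∧ k2 = k)) ∧
        s(Sum.inr (s, (0, 0)), Sum.inl a) ∈ (Q k1 k2).edges := by
      intro k
      by_cases hk : In s (v k)
      · obtain ⟨a, h1, h2⟩ := bd k j hk hj
        exact ⟨a, fun _ => ⟨h1, k, j, hk, hj, Or.inl ⟨rfl, rfl⟩, h2⟩⟩
      · obtain ⟨a, h1, h2⟩ := bd i k hi hk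
        exact ⟨a, fun _ => ⟨h1, i, k, hi, hk, Or.inr ⟨rfl, rfl⟩, h2⟩⟩
    choose f hf using this
    have hcard : ∀ s : Bool,
        (Finset.univ.filter fun a : Fin 9 => s = decide (a.val < 5)).card ≤ 5 := by decide
    have := Finset.card_le_card_of_injOn (s := Finset.univ.erase j)
      (t := Finset.univ.filter fun a : Fin 9 => s = decide (a.val < 5)) f
      (fun k hk => by
        simp only [Finset.coe_filter, Finset.mem_univ, true_and, Set.mem_ofPred_eq]
        exact (hf k (Finset.ne_of_mem_erase hk)).1)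
      (fun k hk l hl e => by
        have hk' := Finset.ne_of_mem_erase hk
        have hl' := Finset.ne_of_mem_erase hl
        obtain ⟨-, k1, k2, a1, a2, a3, a4⟩ := hf k hk'
        obtain ⟨-, l1, l2, b1, b2, b3, b4⟩ := hf l hl'
        rw [e] at a4
        rcases dis k1 k2 l1 l2 _ (by rintro rfl; exact a2 a1) (by rintro rfl; exact b2 b1) a4 b4
          with h | h
        · omega
        · exact absurd (h.1 ▸ a1) b2)
    have h5 := hcard s
    simp only [Finset.mem_univ, Finset.card_erase_of_mem, Finset.card_univ,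
      Fintype.card_fin] at this
    omega
  have ex : ∃ s i, In s (v i) := by
    by_contra h
    have : ∀ i, ∃ a, v i = Sum.inl a := by
      intro i
      rcases hh : v i with a | ⟨s, p⟩
      · exact ⟨a, rfl⟩
      · exact absurd ⟨s, i, p, hh⟩ h
    choose f hf using this
    have := Fintype.card_le_of_injective f fun i j e => hv (by rw [hf, hf, e])
    simp at this
  obtain ⟨s, i0, hi0⟩ := ex
  choose c hc using fun j => cut s i0 j hi0
  have hadj : ∀ p q : K, G0.Adj (.inr (s, p)) (.inr (s, q)) → p.1 ≠ q.1 := by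
    intro p q h
    have h' : (s == s && p.1 != q.1) = true := h
    simpa using h'
  refine core c (fun i j e => hv (by rw [hc, hc, e]))
    (fun i j a b => s(Sum.inr (s, a), Sum.inr (s, b)) ∈ (Q i j).edges)
    (fun i j a b h => by rwa [Sym2.eq_swap]) (fun i j k l a b => dis i j k l _) ?_
  intro i j hij
  have hp := (hQ i j hij).1
  have hs := stay (Q i j) hp ⟨_, hc i⟩ ⟨_, hc j⟩
  obtain ⟨z, a1, a2, a3, a4⟩ := first_two (Q i j) hp (hv.ne hij)
  obtain ⟨z, rfl⟩ := hs z a3
  refine ⟨z, hadj _ _ (hc i ▸ a1), hc i ▸ a2, ?_⟩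
  rcases a4 with h | ⟨z2, b1, b2, b3, b4⟩
  · left
    rw [hc j] at h
    simpa using h
  · obtain ⟨z2, rfl⟩ := hs z2 b4
    exact Or.inr ⟨z2, hadj _ _ b1, b2, fun e => b3 (by rw [hc i, e])⟩

def col : V0 → Fin 9
  | .inl a => a
  | .inr (true, p) => ⟨p.1.val + 5, by omega⟩
  | .inr (false, p) => ⟨p.1.val, by omega⟩

theorem chrom : G0.chromaticNumber = 9 := by
  apply le_antisymm
  · have : G0.Colorable 9 := ⟨Coloring.mk col (by decide +kernel)⟩
    exact this.chromaticNumber_le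
  · have h : G0.IsClique (Finset.univ.image (Sum.inl : Fin 9 → V0) : Finset V0) := by
      intro x hx y hy hxy
      simp only [Finset.coe_image, Finset.coe_univ, Set.image_univ, Set.mem_range] at hx hy
      obtain ⟨a, rfl⟩ := hx
      obtain ⟨b, rfl⟩ := hy
      show (a != b) = true
      simpa using hxy
    have := h.card_le_chromaticNumber
    rw [Finset.card_image_of_injective _ Sum.inl_injective] at this
    simpa using this

theorem result : ∃ (d : ℕ) (V : Type) (_ : Fintype V) (G : SimpleGraph V) (_ : DecidableRel G.Adj),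
    1 ≤ d ∧ Nonempty V ∧ G.minDegree = d - 1 ∧ G.chromaticNumber = (d - 1 : ℕ) ∧
      ¬ HasImmersion G d :=
  ⟨10, V0, inferInstance, G0, inferInstance, by omega, inferInstance, by decide +kernel, chrom,
    no_imm⟩

end Pool.Agent.Results.MP_5ee7f3_co.Full
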